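import Pool.Agent.Helper18.MCU.Lit
import Pool.Agent.Helper29.MX.St2

/-! INDEPENDENCE OF THE FRAME, the clauses `Dfx`, `Vsx` of `Helper29/MX/St2` from one least carrier and one frame. -/

set_option autoImplicit false

namespace Pool.Agent.Helper18.MCU

open Finset Filter Topology Matrix Pool.Agent.Helper69.RK Pool.Agent.Helper31.EC Pool.Agent.Helper31.EC.Sp
open Pool.Agent.Helper40.EL Pool.Agent.Helper89.LX Pool.Agent.Helper3.LF Pool.Agent.Helper84.MT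
open Pool.Agent.Helper49.MD Pool.Agent.Helper36.AM Pool.Agent.Helper29.MX Pool.Agent.Helper18.TRF

noncomputable section

variable {S : Sp} {N : ℕ} {E : ℕ → ℕ} {ι : Type} {s : MSys S N E ι} {R : Rsl S} {w : Fin N → ℝ} {c : ℝ} {X X' : Rsl S}

/-- LEAST CARRIERS are unique up to `o(n)` bits -/
theorem mc_uniq (h : Mc s R w c X) (h' : Mc s R w c X') : Nul S fun k => Helper31.EC.h (fc (X k)) (fc (X' k)) :=
  h.min (Lab.ofZ X') h'.kl h'.fr

/-- a unit is at most `1` -/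
theorem unit_le (i : Fin N) (hw : ∀ j, 1 ≤ w j) (hc : 0 ≤ c) {e : ℝ} (hwe : ∀ j, w j * c + e ≤ 1) : e ≤ 1 := by
  have h1 := hwe i
  have h2 := mul_nonneg (zero_le_one.trans (hw i)) hc
  linarith

section
variable [Finite ι] (i₀ : Fin N) (hP : Pt s R) (hw : ∀ j, 1 ≤ w j)
include i₀ hP hw

/-- the deficit, one window -/
theorem dfx_at (hc : 0 ≤ c) (hT : volKO s R c = N - (∑ i, w i) * c) (hX : Mc s R w c X) (hX' : Mc s R w c X')
    (f : Frm s.Q (Lab.ofZ X) fun j => w j * c) (f' : Frm s.Q (Lab.ofZ X') fun j => w j * c) {e v : ℝ} (he : 0 < e)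
    (hwe : ∀ j, w j * c + e ≤ 1) (h : ul (fun k => Helper31.EC.h (clF f e k) (fc (X k)) / (S.F k).n) ≤ v) :
    ul (fun k => Helper31.EC.h (clF f' e k) (fc (X' k)) / (S.F k).n) ≤ v :=
  (rate_le hP hX.kl hX'.kl hc hw hT.symm.le f f' he (unit_le i₀ hw hc hwe) hwe le_rfl (mc_uniq hX hX')).trans h

/-- the visibility, one pair of windows -/
theorem vsx_at (hc : 0 ≤ c) (hT : volKO s R c = N - (∑ i, w i) * c) (hX : Mc s R w c X) (hX' : Mc s R w c X')
    (f : Frm s.Q (Lab.ofZ X) fun j => w j * c) (f' : Frm s.Q (Lab.ofZ X') fun j => w j * c) {e : ℝ} (he : 0 < e)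
    (hwe : ∀ j, w j * c + e ≤ 1) {Y Y' : Part S} (hY : Nul S fun k => Helper31.EC.h (Y' k) (Y k))
    (h : Nul S fun k => Helper31.EC.h (Y k) (fc (X k) ⊔ clF f e k)) :
    Nul S fun k => Helper31.EC.h (Y' k) (fc (X' k) ⊔ clF f' e k) := by
  have h1 := cel_le hP hX'.kl hX.kl hc hw hT.symm.le f' f he (unit_le i₀ hw hc hwe) hwe le_rfl (mc_uniq hX' hX)
  have h2 := mc_uniq hX hX'
  refine (((hY.add h).add h1).add (h2.add h2)).of_le (Eventually.of_forall fun k => h_nonneg _ _)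
    (Eventually.of_forall fun k => ?_)
  have a1 := h_triangle' (Y' k) (Y k) (fc (X' k) ⊔ clF f' e k)
  have a2 := h_triangle' (Y k) (fc (X k) ⊔ clF f e k) (fc (X' k) ⊔ clF f' e k)
  have a3 := h_sup_le (fc (X k)) (clF f e k) (fc (X' k) ⊔ clF f' e k)
  have a4 : Helper31.EC.h (fc (X k)) (fc (X' k) ⊔ clF f' e k) ≤ Helper31.EC.h (fc (X k)) (fc (X' k)) := h_anti le_sup_left
  have a5 := h_triangle' (clF f e k) (fc (X k) ⊔ clF f' e k) (fc (X' k) ⊔ clF f' e k)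
  have a6 := h_sup_le (fc (X k)) (clF f' e k) (fc (X' k) ⊔ clF f' e k)
  have a7 : Helper31.EC.h (clF f' e k) (fc (X' k) ⊔ clF f' e k) ≤ 0 := by
    have := h_anti (A := clF f' e k) (le_sup_right : clF f' e k ≤ fc (X' k) ⊔ clF f' e k)
    rw [h_self] at this
    exact this
  linarith

/-- **THE DEFICIT** from one least carrier and one frame -/
theorem dfx_of {ρ : ℝ} (hT : Tot w s R) (h : ∀ c : ℝ, 0 ≤ c → (∀ i, w i * c < 1) → ∃ X, Mc s R w c X ∧
    ∃ f : Frm s.Q (Lab.ofZ X) fun j => w j * c, ∀ e : ℝ, 0 < e → (∀ i, w i * c + e ≤ 1) →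
      ul (fun k => Helper31.EC.h (clF f e k) (fc (X k)) / (S.F k).n) ≤ (N - ρ) * e) : Dfx w ρ s R := by
  intro c hc hwc X' hX' f' e he hwe
  obtain ⟨X, hX, f, h1⟩ := h c hc hwc
  exact dfx_at i₀ hP hw hc (hT c hc hwc) hX hX' f f' he hwe (h1 e he hwe)

/-- **THE VISIBILITY** from one choice of the least carriers and of the frame -/
theorem vsx_of (hT : Tot w s R) (h : ∀ c c' : ℝ, 0 ≤ c → c ≤ c' → (∀ i, w i * c' < 1) → ∃ X X', Mc s R w c X ∧
    Mc s R w c' X' ∧ ∃ f : Frm s.Q (Lab.ofZ X) fun j => w j * c, ∀ e : ℝ, 0 < e → (∀ i, w i * c + e ≤ 1) →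
      (∀ i, w i * (c' - c) < e) → Nul S fun k => Helper31.EC.h (fc (X' k)) (fc (X k) ⊔ clF f e k)) : Vsx w s R := by
  intro c c' hc hcc hwc X1 X1' hX1 hX1' f1 e he hwe hwd
  obtain ⟨X, X', hX, hX', f, h1⟩ := h c c' hc hcc hwc
  have hwc0 : ∀ i, w i * c < 1 := fun i =>
    lt_of_le_of_lt (mul_le_mul_of_nonneg_left hcc (zero_le_one.trans (hw i))) (hwc i)
  exact vsx_at i₀ hP hw hc (hT c hc hwc0) hX hX1 f f1 he hwe (mc_uniq hX1' hX') (h1 e he hwe hwd)

end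

end

end Pool.Agent.Helper18.MCU
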