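import Pool.Agent.Helper18.TRF.Ful
import Pool.Agent.Helper18.TRF.Cmp
import Pool.Agent.Helper7.RD.Fx
import Pool.Agent.Helper29.MX.Bas

/-! INDEPENDENCE OF THE FRAME: if the exact labels of a class have the total exponent of a frame, the cells of the
coordinates of any two frames with the same exponents over one label (or over two labels, over the join) are the same
information, up to `o(n)` bits. -/

set_option autoImplicit false

namespace Pool.Agent.Helper18.MCU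

open Finset Filter Topology Matrix Pool.Agent.Helper69.RK Pool.Agent.Helper31.EC Pool.Agent.Helper31.EC.Sp
open Pool.Agent.Helper40.EL Pool.Agent.Helper89.LX Pool.Agent.Helper3.LF Pool.Agent.Helper84.MT
open Pool.Agent.Helper49.MD Pool.Agent.Helper36.AM Pool.Agent.Helper29.MX Pool.Agent.Helper18.TRF
open Pool.Agent.Helper7.RD (FD0 volCO)
open Pool.Agent.Helper26.BXD (NG)
open Pool.Agent.Helper87.NSL (KnS cndR)

noncomputable section

variable {S : Sp} {M : ℕ} {E : ℕ → ℕ} {ι κ : Type}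

/-- the zoom point of a frame of the right volume has a full hull -/
theorem ful_zoom [Finite κ] {A : κ → Part S} {R : Rsl S} {Q : S.VV M} (hP : KnS R Q.v) {l : Lab S} (hl : l.DMf A)
    (hC : (KZ R).ev l) {La : Fin M → ℝ} (F : FD0 Q l La)
    (hv : (M : ℝ) - ∑ j, La j ≤ volCO (KZ R) A Q) : Ful (S := l.ovr F.e F.he) F.XV := by
  have h2 := F.volCO_le (A := A) (B := fun i => l.up F.e F.he (A i)) hl (fun i => ⟨i, PLe.refl _⟩)
    (C := fun k => fc (R k)) hC F.isX_XV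
  have h3 : (M : ℝ) ≤ volCO (LC.kz (l.up F.e F.he fun k => fc (R k))) (fun i => l.up F.e F.he (A i)) F.XV := by
    have h5 : volCO (KZ R) A Q ≤ M - ∑ j, La j - F.e * (M - volCO (LC.kz (l.up F.e F.he fun k => fc (R k)))
      (fun i => l.up F.e F.he (A i)) F.XV) := h2
    by_contra h6
    push Not at h6
    have := mul_pos F.he (sub_pos.2 h6)
    linarith
  exact ful_ng (S := l.ovr F.e F.he) (R := fun k => (Setoid.comap (l k).p.π (R k) : Setoid (l k).T.Ω)) (F.XV_lit hP)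
    (NG.of_volCO (S := l.ovr F.e F.he) h3)

/-- **TWO FRAMES OVER ONE LABEL**: the cells of the coordinates -/
theorem cel_pt [Finite κ] {A : κ → Part S} {R : Rsl S} {Q : S.VV M} (hP : KnS R Q.v) {l : Lab S} (hl : l.DMf A)
    (hC : (KZ R).ev l) {La : Fin M → ℝ} (f f' : Frm Q l La) (h0 : ∀ i, 0 ≤ La i) {d d' : ℕ}
    (hd : ∀ k ω j, (f.P k ω j).totalDegree ≤ d) (hd' : ∀ k ω j, (f'.P k ω j).totalDegree ≤ d') {e : ℝ} (he : 0 < e)
    (he1 : e ≤ 1) (hLe : ∀ i, La i + e ≤ 1) (hv : (M : ℝ) - ∑ j, La j ≤ volCO (KZ R) A Q) {r : ℝ} (hr : r ≤ e) :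
    Nul S fun k => h (fc (Setoid.ker (f'.X.cellv r k)) : FL (l k).T) ((l k).v ⊔ fc (Setoid.ker (f.X.cellv r k))) := by
  obtain ⟨F, hF⟩ : ∃ F : FD0 Q l La, F = ⟨f, 0, e, le_rfl, he, by linarith, h0, hLe, d, hd⟩ := ⟨_, rfl⟩
  have h1 : Ful (S := l.ovr e he) (FD0.XV ⟨f, 0, e, le_rfl, he, by linarith, h0, hLe, d, hd⟩) :=
    ful_zoom hP hl hC (⟨f, 0, e, le_rfl, he, by linarith, h0, hLe, d, hd⟩ : FD0 Q l La) hv
  refine trf_cells f f' h0 hd hd' he hLe h1 ?_ hr
  obtain ⟨K, hK, h2⟩ := FD0.near (⟨f, 0, e, le_rfl, he, by linarith, h0, hLe, d, hd⟩ : FD0 Q l La)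
  exact ⟨K, hK, h2⟩

/-! ### weights -/

/-- the degree of a frame with weights -/
theorem exists_W (w : Fin M → ℝ) : ∃ W : ℕ, ∀ j, w j ≤ W := by
  obtain ⟨W, hW⟩ := exists_nat_ge (∑ j, |w j|)
  exact ⟨W, fun j => (le_abs_self _).trans ((Finset.single_le_sum (f := fun j => |w j|) (fun i _ => abs_nonneg _)
    (Finset.mem_univ j)).trans hW)⟩

section sys
variable {s : MSys S M E ι} [Finite ι] {R : Rsl S} {w : Fin M → ℝ} {c e : ℝ}

/-- **TWO FRAMES OVER ONE K-LABEL**: the cells of the coordinates are the same information -/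
theorem cel_klb (hP : Pt s R) {l : Lab S} (hl : KLb s R c l) (hc : 0 ≤ c) (hw : ∀ j, 1 ≤ w j)
    (hv : (M : ℝ) - (∑ j, w j) * c ≤ volKO s R c) (f f' : Frm s.Q l fun j => w j * c) (he : 0 < e) (he1 : e ≤ 1)
    (hwe : ∀ j, w j * c + e ≤ 1) {r : ℝ} (hr : r ≤ e) :
    Nul S fun k => h (fc (Setoid.ker (f'.X.cellv r k)) : FL (l k).T) ((l k).v ⊔ fc (Setoid.ker (f.X.cellv r k))) := by
  obtain ⟨W, hW⟩ := exists_W w
  refine cel_pt (A := cndR s R c) hP hl.1 hl.2 f f' (fun j => mul_nonneg (zero_le_one.trans (hw j)) hc)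
    (frm_deg0 f hc hw hW) (frm_deg0 f' hc hw hW) he he1 hwe ?_ hr
  rw [← volKO_eq, ← Finset.sum_mul]
  exact hv

end sys

end

end Pool.Agent.Helper18.MCU
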