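import Pool.Agent.Helper18.MCU.Ind

/-! INDEPENDENCE OF THE FRAME, literal labels: frames with the same exponents over two literal labels which know each
other have the same cells, up to `o(n)` bits. -/

set_option autoImplicit false

namespace Pool.Agent.Helper18.MCU

open Finset Filter Topology Matrix Pool.Agent.Helper69.RK Pool.Agent.Helper31.EC Pool.Agent.Helper31.EC.Sp
open Pool.Agent.Helper40.EL Pool.Agent.Helper89.LX Pool.Agent.Helper3.LF Pool.Agent.Helper84.MT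
open Pool.Agent.Helper49.MD Pool.Agent.Helper36.AM Pool.Agent.Helper29.MX Pool.Agent.Helper18.TRF
open Pool.Agent.Helper87.NSL (KnS cndR)

noncomputable section

variable {S : Sp} {M : ℕ} {E : ℕ → ℕ} {ι κ : Type}

/-! ### literal labels -/

/-- a finer literal label -/
def rfz {W X : Rsl S} (h : ∀ k, W k ≤ X k) : Rfn (Lab.ofZ W) (Lab.ofZ X) where
  q := fun k => ⟨fun ω => ω, (FLab.triv (S.F k)).p.law, fun _ _ _ _ => Iff.rfl⟩
  hn := fun _ => rfl
  pr := fun _ _ _ => rfl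
  lb := fun k _ _ _ _ _ hr => h k hr

/-- the join of two literal labels -/
@[instance_reducible] def jnz (X X' : Rsl S) : Rsl S := fun k => X k ⊓ X' k

theorem jnz_fc (X X' : Rsl S) (k : ℕ) : (fc (jnz X X' k) : FL (S.F k)) = fc (X k) ⊔ fc (X' k) := fc_inf _ _

/-- the cells of the coordinates of a frame over a literal label, a partition of the space -/
def clF {Q : S.VV M} {X : Rsl S} {La : Fin M → ℝ} (f : Frm Q (Lab.ofZ X) La) (r : ℝ) : Part S :=
  fun k => (fc (Setoid.ker (f.X.cellv r k)) : FL (Lab.ofZ X k).T)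

theorem clF_frx {Q : S.VV M} {W X : Rsl S} (h : ∀ k, W k ≤ X k) {La : Fin M → ℝ} (f : Frm Q (Lab.ofZ X) La) (r : ℝ) :
    clF (frx (rfz h) f) r = clF f r := rfl

theorem clF_bd {Q : S.VV M} {X : Rsl S} {La : Fin M → ℝ} (f : Frm Q (Lab.ofZ X) La) (r : ℝ) : (clF f r).Bd :=
  pof_Bd (f.X.bdd r).toInf.2

/-- the join of two K-labels is a K-label -/
theorem klb_jnz {s : MSys S M E ι} {R : Rsl S} {c : ℝ} {X X' : Rsl S} (hX : KLb s R c (Lab.ofZ X))
    (hX' : KLb s R c (Lab.ofZ X')) : KLb s R c (Lab.ofZ (jnz X X')) := by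
  constructor
  · rw [Lab.ofZ_DMf]
    intro i
    have e : (fun k => (fc (jnz X X' k) : FL (S.F k))) = fun k => fc (X k) ⊔ fc (X' k) := funext fun k => jnz_fc X X' k
    rw [e]
    exact PLe.sup_le ((Lab.ofZ_DMf X).mp hX.1 i) ((Lab.ofZ_DMf X').mp hX'.1 i)
  · filter_upwards [hX.2, hX'.2] with k a b
    have a1 : (Lab.ofZ X k).leak (fc (R k)) = 0 := a
    have b1 : (Lab.ofZ X' k).leak (fc (R k)) = 0 := b
    rw [Lab.ofZ_leak X (fun k => fc (R k)) k] at a1
    rw [Lab.ofZ_leak X' (fun k => fc (R k)) k] at b1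
    show (Lab.ofZ (jnz X X') k).leak (fc (R k)) = 0
    rw [Lab.ofZ_leak (jnz X X') (fun k => fc (R k)) k, jnz_fc]
    apply le_antisymm _ (h_nonneg _ _)
    refine (h_sup_le _ _ _).trans ?_
    rw [a1, b1, add_zero]

section sys
variable {s : MSys S M E ι} [Finite ι] {R : Rsl S} {w : Fin M → ℝ} {c e : ℝ} {X X' : Rsl S}

/-- **FRAMES OVER TWO LITERAL K-LABELS**: over the join the cells are the same information -/
theorem cel_lit (hP : Pt s R) (hX : KLb s R c (Lab.ofZ X)) (hX' : KLb s R c (Lab.ofZ X')) (hc : 0 ≤ c)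
    (hw : ∀ j, 1 ≤ w j) (hv : (M : ℝ) - (∑ j, w j) * c ≤ volKO s R c) (f : Frm s.Q (Lab.ofZ X) fun j => w j * c)
    (f' : Frm s.Q (Lab.ofZ X') fun j => w j * c) (he : 0 < e) (he1 : e ≤ 1) (hwe : ∀ j, w j * c + e ≤ 1) {r : ℝ}
    (hr : r ≤ e) : Nul S fun k => h (clF f' r k) (fc (X k) ⊔ fc (X' k) ⊔ clF f r k) := by
  have h1 := cel_klb hP (klb_jnz hX hX') hc hw hv (frx (rfz fun k => (inf_le_left : jnz X X' k ≤ X k)) f)
    (frx (rfz fun k => (inf_le_right : jnz X X' k ≤ X' k)) f') he he1 hwe hr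
  have h2 : Nul S fun k => h (clF f' r k) (fc (jnz X X' k) ⊔ clF f r k) := h1
  refine h2.congr fun k => ?_
  beta_reduce
  rw [jnz_fc]

/-- the cells of the second frame are known to the second label and the first cells, up to the bits of the first label
which are not known to the second one -/
theorem cel_le (hP : Pt s R) (hX : KLb s R c (Lab.ofZ X)) (hX' : KLb s R c (Lab.ofZ X')) (hc : 0 ≤ c)
    (hw : ∀ j, 1 ≤ w j) (hv : (M : ℝ) - (∑ j, w j) * c ≤ volKO s R c) (f : Frm s.Q (Lab.ofZ X) fun j => w j * c)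
    (f' : Frm s.Q (Lab.ofZ X') fun j => w j * c) (he : 0 < e) (he1 : e ≤ 1) (hwe : ∀ j, w j * c + e ≤ 1) {r : ℝ}
    (hr : r ≤ e) (hXX : Nul S fun k => h (fc (X k)) (fc (X' k))) :
    Nul S fun k => h (clF f' r k) (fc (X' k) ⊔ clF f r k) := by
  refine ((cel_lit hP hX hX' hc hw hv f f' he he1 hwe hr).add hXX).of_le
    (Eventually.of_forall fun k => h_nonneg _ _) (Eventually.of_forall fun k => ?_)
  have h1 := h_triangle' (clF f' r k) (fc (X k) ⊔ fc (X' k) ⊔ clF f r k) (fc (X' k) ⊔ clF f r k)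
  have h2 : h (fc (X k) ⊔ fc (X' k) ⊔ clF f r k) (fc (X' k) ⊔ clF f r k) ≤ h (fc (X k)) (fc (X' k)) := by
    have e1 : fc (X k) ⊔ fc (X' k) ⊔ clF f r k = fc (X k) ⊔ (fc (X' k) ⊔ clF f r k) := sup_assoc _ _ _
    rw [e1]
    have h3 := h_sup_le (fc (X k)) (fc (X' k) ⊔ clF f r k) (fc (X' k) ⊔ clF f r k)
    rw [h_self, add_zero] at h3
    exact h3.trans (h_anti le_sup_left)
  linarith

/-- **THE RATE OF THE CELLS** does not depend on the label and on the frame -/
theorem rate_le (hP : Pt s R) (hX : KLb s R c (Lab.ofZ X)) (hX' : KLb s R c (Lab.ofZ X')) (hc : 0 ≤ c)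
    (hw : ∀ j, 1 ≤ w j) (hv : (M : ℝ) - (∑ j, w j) * c ≤ volKO s R c) (f : Frm s.Q (Lab.ofZ X) fun j => w j * c)
    (f' : Frm s.Q (Lab.ofZ X') fun j => w j * c) (he : 0 < e) (he1 : e ≤ 1) (hwe : ∀ j, w j * c + e ≤ 1) {r : ℝ}
    (hr : r ≤ e) (hXX : Nul S fun k => h (fc (X k)) (fc (X' k))) :
    ul (fun k => h (clF f' r k) (fc (X' k)) / (S.F k).n) ≤ ul (fun k => h (clF f r k) (fc (X k)) / (S.F k).n) := by
  have h1 := cel_le hP hX hX' hc hw hv f f' he he1 hwe hr hXX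
  have t1 := ul_tendsto ((clF_bd f' r).ub fun k => fc (X' k))
  have t2 := ul_tendsto ((clF_bd f r).ub fun k => fc (X k))
  have t3 := t2.add (h1.add hXX)
  rw [add_zero] at t3
  refine le_of_tendsto_of_tendsto t1 t3 (Eventually.of_forall fun k => ?_)
  beta_reduce
  rw [← add_div]
  apply div_le_div_of_nonneg_right _ (S.F k).pos.le
  have a1 := h_triangle' (clF f' r k) (fc (X' k) ⊔ clF f r k) (fc (X' k))
  have a2 : h (fc (X' k) ⊔ clF f r k) (fc (X' k)) ≤ h (clF f r k) (fc (X' k)) := by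
    have a3 := h_sup_le (fc (X' k)) (clF f r k) (fc (X' k))
    rw [h_self, zero_add] at a3
    exact a3
  have a4 := h_triangle' (clF f r k) (fc (X k)) (fc (X' k))
  linarith

end sys

end

end Pool.Agent.Helper18.MCU
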